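import Pool.Agent.Helper3.TP.St2

/-!
Project TP, module PB (MP_86d903_lc): the constants are polynomial in `B`.
-/

namespace Helper54.TPB

open Helper3.TP

/-- Bounded by a power of `B + 2`. -/
def Gd (f : ℕ → ℕ) : Prop := ∃ E : ℕ, ∀ B : ℕ, f B ≤ (B + 2) ^ E

lemma gd_const (c : ℕ) : Gd (fun _ => c) := by
  refine ⟨c, fun B => ?_⟩
  calc c ≤ 2 ^ c := Nat.lt_two_pow_self.le
    _ ≤ (B + 2) ^ c := Nat.pow_le_pow_left (by omega) c

lemma gd_id : Gd (fun B => B) := ⟨1, fun B => by simp⟩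

lemma gd_add {f g : ℕ → ℕ} (hf : Gd f) (hg : Gd g) : Gd (fun B => f B + g B) := by
  obtain ⟨E, hE⟩ := hf
  obtain ⟨F, hF⟩ := hg
  refine ⟨E + F + 1, fun B => ?_⟩
  have h1 : (B + 2) ^ E ≤ (B + 2) ^ (E + F) := Nat.pow_le_pow_right (by omega) (by omega)
  have h2 : (B + 2) ^ F ≤ (B + 2) ^ (E + F) := Nat.pow_le_pow_right (by omega) (by omega)
  have h3 := hE B
  have h4 := hF B
  have h5 : (B + 2) ^ (E + F + 1) = (B + 2) ^ (E + F) * (B + 2) := pow_succ _ _
  have h6 : (B + 2) ^ (E + F) * 2 ≤ (B + 2) ^ (E + F) * (B + 2) :=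
    Nat.mul_le_mul_left _ (by omega)
  show f B + g B ≤ (B + 2) ^ (E + F + 1)
  omega

lemma gd_mul {f g : ℕ → ℕ} (hf : Gd f) (hg : Gd g) : Gd (fun B => f B * g B) := by
  obtain ⟨E, hE⟩ := hf
  obtain ⟨F, hF⟩ := hg
  refine ⟨E + F, fun B => ?_⟩
  rw [pow_add]
  exact Nat.mul_le_mul (hE B) (hF B)

lemma gd_pow {f : ℕ → ℕ} (hf : Gd f) (n : ℕ) : Gd (fun B => f B ^ n) := by
  obtain ⟨E, hE⟩ := hf
  refine ⟨E * n, fun B => ?_⟩
  rw [pow_mul]
  exact Nat.pow_le_pow_left (hE B) n

/-- Composition with a function bounded by a power. -/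
lemma gd_comp {φ f : ℕ → ℕ} (hf : Gd f) (hφ : ∃ E : ℕ, ∀ Y : ℕ, φ Y ≤ (Y + 2) ^ E) :
    Gd (fun B => φ (f B)) := by
  obtain ⟨E, hE⟩ := hφ
  obtain ⟨F, hF⟩ := gd_add hf (gd_const 2)
  refine ⟨F * E, fun B => ?_⟩
  rw [pow_mul]
  exact (hE (f B)).trans (Nat.pow_le_pow_left (hF B) E)

attribute [local irreducible] ball rad adjT tightN tightK tightS badN fineN popN lamD evP evN evK evJ
  evS evT tau0 tauM T2 T1 starN locK

section
variable (hR : PRad) (D : ℕ)
include hR

lemma gd_ball {f : ℕ → ℕ} (hf : Gd f) : Gd (fun B => ball D (f B)) :=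
  gd_comp (φ := ball D) hf (hR.2.2.2.1 D)

lemma gd_log (lam : ℕ) {f : ℕ → ℕ} (hf : Gd f) :
    Gd (fun B => (lam + 1) ^ (Nat.log 2 (f B) + 1)) :=
  gd_comp (φ := fun b => (lam + 1) ^ (Nat.log 2 b + 1)) hf (hR.2.2.2.2 lam)

lemma gd_adjT {K J : ℕ → ℕ} (hK : Gd K) (hJ : Gd J) : Gd (fun B => adjT D (K B) (J B)) := by
  unfold adjT
  repeat with_reducible first
    | exact hK | exact hJ | exact gd_id | exact gd_const _ | refine gd_ball hR D ?_
    | refine gd_add ?_ ?_ | refine gd_mul ?_ ?_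

lemma gd_tightN {M P : ℕ → ℕ} (hM : Gd M) (hP : Gd P) :
    Gd (fun B => tightN D (M B) (P B)) := by
  unfold tightN
  repeat with_reducible first
    | exact hM | exact hP | exact gd_id | exact gd_const _ | refine gd_ball hR D ?_
    | refine gd_add ?_ ?_ | refine gd_mul ?_ ?_

lemma gd_tightK {M P : ℕ → ℕ} (hM : Gd M) (hP : Gd P) :
    Gd (fun B => tightK D (M B) (P B)) := by
  unfold tightK
  exact gd_mul (gd_const _) (gd_add hM (gd_tightN hR D hM hP))

lemma gd_tightS {M P : ℕ → ℕ} (hM : Gd M) (hP : Gd P) :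
    Gd (fun B => tightS D (M B) (P B)) := by
  unfold tightS
  have h := gd_tightK hR D hM hP
  repeat with_reducible first
    | exact h | exact hM | exact hP | exact gd_id | exact gd_const _
    | refine gd_add ?_ ?_ | refine gd_mul ?_ ?_

lemma gd_badN {P : ℕ → ℕ} (hP : Gd P) : Gd (fun B => badN D (P B)) := by
  unfold badN
  repeat with_reducible first
    | exact hP | exact gd_id | exact gd_const _ | refine gd_ball hR D ?_
    | refine gd_add ?_ ?_ | refine gd_mul ?_ ?_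

omit hR in
lemma gd_fineN {b : ℕ → ℕ} (hb : Gd b) : Gd (fun B => fineN (b B)) := by
  unfold fineN
  repeat with_reducible first
    | exact hb | exact gd_id | exact gd_const _
    | refine gd_add ?_ ?_ | refine gd_mul ?_ ?_ | refine gd_pow ?_ _

omit hR in
lemma gd_popN {b : ℕ → ℕ} (hb : Gd b) : Gd (fun B => popN D (b B)) := by
  unfold popN
  exact gd_mul (gd_const _) (gd_mul (gd_fineN hb) (gd_const _))

omit hR in
lemma gd_evP {b Hv : ℕ → ℕ} (hb : Gd b) (hH : Gd Hv) : Gd (fun B => evP (b B) (Hv B)) := by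
  unfold evP
  repeat with_reducible first
    | exact hb | exact hH | exact gd_id | exact gd_const _
    | refine gd_add ?_ ?_ | refine gd_mul ?_ ?_ | refine gd_pow ?_ _

lemma gd_evN {b Hv : ℕ → ℕ} (hb : Gd b) (hH : Gd Hv) :
    Gd (fun B => evN D (b B) (Hv B)) := by
  unfold evN
  exact gd_badN hR D (gd_evP hb hH)

lemma gd_evK {b Ym Hv : ℕ → ℕ} (hb : Gd b) (hY : Gd Ym) (hH : Gd Hv) :
    Gd (fun B => evK D (b B) (Ym B) (Hv B)) := by
  have h1 := gd_evP hb hH
  have h2 := gd_evN hR D hb hH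
  have h3 := gd_fineN hb
  unfold evK
  repeat with_reducible first
    | exact h1 | exact h2 | exact h3 | exact hb | exact hY | exact hH | exact gd_id
    | exact gd_const _ | refine gd_add ?_ ?_ | refine gd_mul ?_ ?_ | refine gd_pow ?_ _

lemma gd_evJ {b Ym Hv : ℕ → ℕ} (hb : Gd b) (hY : Gd Ym) (hH : Gd Hv) :
    Gd (fun B => evJ D (b B) (Ym B) (Hv B)) := by
  have h1 := gd_evK hR D hb hY hH
  unfold evJ
  repeat with_reducible first
    | exact h1 | exact hb | exact hY | exact hH | exact gd_id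
    | exact gd_const _ | refine gd_add ?_ ?_ | refine gd_mul ?_ ?_ | refine gd_pow ?_ _

lemma gd_evS {b Ym Hv : ℕ → ℕ} (hb : Gd b) (hY : Gd Ym) (hH : Gd Hv) :
    Gd (fun B => evS D (b B) (Ym B) (Hv B)) := by
  have h1 := gd_evK hR D hb hY hH
  have h2 := gd_evJ hR D hb hY hH
  have h3 := gd_evN hR D hb hH
  have h4 := gd_evP hb hH
  unfold evS
  repeat with_reducible first
    | exact h1 | exact h2 | exact h3 | exact h4 | exact hb | exact hY | exact hH | exact gd_id
    | exact gd_const _ | refine gd_add ?_ ?_ | refine gd_mul ?_ ?_ | refine gd_pow ?_ _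

lemma gd_evT {b Ym Hv T : ℕ → ℕ} (hb : Gd b) (hY : Gd Ym) (hH : Gd Hv) (hT : Gd T) :
    Gd (fun B => evT D (b B) (Ym B) (Hv B) (T B)) := by
  have h1 := gd_evK hR D hb hY hH
  have h2 := gd_evJ hR D hb hY hH
  have h3 := gd_adjT hR D h1 h2
  unfold evT
  repeat with_reducible first
    | exact h3 | exact hb | exact hY | exact hT | exact gd_id
    | exact gd_const _ | refine gd_add ?_ ?_ | refine gd_mul ?_ ?_ | refine gd_pow ?_ _

lemma gd_tau0 : Gd (fun B => tau0 D B) := by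
  have h1 := gd_popN D gd_id
  have h2 := gd_evN hR D gd_id (gd_const 0)
  have h3 := gd_evN hR D gd_id (gd_evP gd_id (gd_const 0))
  unfold tau0
  repeat with_reducible first
    | exact h1 | exact h2 | exact h3 | exact gd_id
    | exact gd_const _ | refine gd_add ?_ ?_ | refine gd_mul ?_ ?_ | refine gd_pow ?_ _

lemma gd_tauM : Gd (fun B => tauM D B) := by
  have h1 := gd_tau0 hR D
  have h2 := gd_log hR (lamD D) (gd_mul (gd_const 3) gd_id)
  unfold tauM
  exact gd_mul h1 h2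

lemma gd_T2 : Gd (fun B => T2 D B) := by
  have h0 := gd_tauM hR D
  have hP := gd_evP gd_id (gd_const 0)
  have h1 := gd_evT hR D gd_id (gd_mul (gd_const 90) h0) hP (gd_const 0)
  have h2 := gd_adjT hR D (gd_mul (gd_const 90) h0)
    (gd_add (gd_add hP (gd_mul (gd_mul (gd_const 90) gd_id) h0)) (gd_mul (gd_const 6) gd_id))
  unfold T2
  exact gd_add h1 h2

lemma gd_T1 : Gd (fun B => T1 D B) := by
  have h0 := gd_tauM hR D
  have h1 := gd_evT hR D gd_id (gd_mul (gd_const 9) h0) (gd_const 0) (gd_T2 hR D)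
  have h2 := gd_adjT hR D (gd_mul (gd_const 9) h0)
    (gd_add (gd_mul (gd_mul (gd_const 9) gd_id) h0) (gd_const 1))
  unfold T1
  exact gd_add h1 h2

lemma gd_starN : Gd (fun B => starN D B) := by
  have h0 := gd_tauM hR D
  have h1 := gd_T1 hR D
  unfold starN
  repeat with_reducible first
    | exact h0 | exact h1 | exact gd_id
    | exact gd_const _ | refine gd_add ?_ ?_ | refine gd_mul ?_ ?_ | refine gd_pow ?_ _

lemma gd_locK : Gd (fun B => locK D B) := by
  have h0 := gd_tauM hR D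
  have hP := gd_evP gd_id (gd_const 0)
  have hs := gd_starN hR D
  have h1 := gd_evS hR D gd_id (gd_mul (gd_const 90) h0) hP
  have h2 := gd_evS hR D gd_id (gd_mul (gd_const 9) h0) (gd_const 0)
  have h3 := gd_tightS hR D (gd_mul (gd_const 3) hs)
    (gd_add (gd_mul (gd_mul (gd_const 3) hs) gd_id) (gd_const 1))
  unfold locK
  repeat with_reducible first
    | exact h1 | exact h2 | exact h3 | exact hP | exact hs | exact h0 | exact gd_id
    | exact gd_const _ | refine gd_add ?_ ?_ | refine gd_mul ?_ ?_ | refine gd_pow ?_ _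

end

/-- The constants of the project are polynomial in `B`. -/
theorem hPB (hR : PRad) : PPB := fun D =>
  gd_mul (gd_const 3) (gd_add (gd_locK hR D) (gd_const 1))

end Helper54.TPB
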